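import Pool.Agent.W2helper4.CY.Hyp

/-!
# The Hodge locus of variations of Hodge structure of Calabi–Yau type near a point of maximally unipotent monodromy

Let `V` be a polarised variation of Hodge structure of rank `n = 2m`, of weight `n - 1` and with all Hodge numbers
`h^{p,q} = 1` on a nonempty Zariski open subset of the projective line, with parameter `x`, whose bundle with connection, Hodge
filtration and form are defined over `ℚ`, and with maximally unipotent monodromy at the rational point `x = 0`. In a symplectic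
frame `ω_0, …, ω_{n-1}` of the canonical extension at `x = 0` which is adapted to the Hodge filtration, and in a symplectic
Frobenius basis of multivalued flat sections, the period matrix is `P(x) x^N`, where `N` is the nilpotent Jordan block and `P`
is a matrix of power series over `ℚ`. It satisfies the conditions in `IsVariation`: `P` is symplectic, `P(x) x^N` is a solution
of a linear differential equation over `ℚ(x)`, and the entries of `P` are G-functions, if `V` is of geometric origin
(André). (If the logarithm of the monodromy is `2 π i e N` then one multiplies the frame and the basis by powers of `e`.) The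
results below use only these conditions; neither Griffiths transversality nor the behaviour away from `x = 0` matters.

Let `V_1, …, V_r` be such variations of ranks `2 m_i ≥ 8`, with matrices `P_1, …, P_r`. We assume that the algebraic monodromy
group of `V_1 ⊕ ⋯ ⊕ V_r` is the full product of the symplectic groups. By differential Galois theory this is the condition
`MaximalMonodromy`: all polynomial relations over `ℚ(x)` between the entries of `P_1, …, P_r` follow from the symplectic ones
(`log x` is independent of the entries of the matrices `P_i(x) x^N`, since the symplectic groups have no additive quotients). It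
holds if no `V_i` is a symmetric power of a variation of rank two and no two of them are isomorphic, up to a twist of rank
one, since these are the only algebraic groups with a regular unipotent element, by Saxl and Seitz and by the lemma of
Goursat, Kolchin and Ribet. Then the generic Mumford–Tate groups are as large as possible, and the point `x` is Hodge generic
for the external sum if and only if the Lie algebra of the Mumford–Tate group of the sum of the fibres contains the product of
the symplectic Lie algebras. All special points are atypical.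

We prove: for algebraic points `x = 1 / ξ` near `x = 0` of degree at most `g` and with height at most a power of `|ξ|` the sum
of the fibres of different families at `x`, or at the neighbouring points `1 / (ξ - G u)`, is Hodge generic, with
finitely many exceptions. This is uniform in all polarised rational structures, different ones for all summands: we only use
that the logarithm of the local monodromy at `x = 0` and (up to a factor) the form are rational. The theorem `hypergeometric`
shows that the hypergeometric families are examples.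

The starting files `HypergeometricAlgebraicGeneric` (one fibre), `HodgeAlgebraicWindows` (MP_0da4e0_ag) and my
`SumsOfVariations`, `ProductsOfVariations` are about hypergeometric families, with a proof from special properties of their
differential equation and monodromy; here the families are arbitrary. I know of no result of this kind for other families.

Proof. By the theorems of helper916 on values of G-functions at algebraic points (in the direction of Bombieri, André and
Galochkin, with the determinant method) all relations of bounded degree between the entries of the matrices `P_i` at the points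
`1 / (ξ - G u)` come from relations between the functions, if `|ξ|` is large, so they hold on the product of the symplectic
groups. For two fibres of the same rank we pass to an ultraproduct. There are derivations which kill one of the matrices
and move the other one by any rank one element. If the Lie algebra of the Mumford–Tate group had no element `(X, 0)` then the
velocities of the first Hodge operator would be determined by those of the second one, which lie in a space of dimension
`m + 1`, but they span a space of dimension at least `3 m - 5`. For fibres of different ranks we compare dimensions, and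
conclude with the lemma of Goursat, Kolchin and Ribet.
-/

set_option autoImplicit false

open PowerSeries

namespace Pool.Agent.Results.MP_0704bf_ag.CalabiYauVariations

/-- the nilpotent Jordan block -/
def N (n : ℕ) : Matrix (Fin n) (Fin n) ℚ := Matrix.of fun i j => if (j : ℕ) = i + 1 then 1 else 0

/-- the matrix of the standard alternating form, for even `n` -/
def S (n : ℕ) : Matrix (Fin n) (Fin n) ℚ := Matrix.of fun i j => if (i : ℕ) + j + 1 = n then (-1) ^ (i : ℕ) else 0

/-- a rational matrix as a complex matrix -/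
def toC {n : ℕ} (M : Matrix (Fin n) (Fin n) ℚ) : Matrix (Fin n) (Fin n) ℂ := M.map fun x : ℚ => (x : ℂ)

/-- a rational matrix as a matrix of constant power series -/
noncomputable def toPS {n : ℕ} (M : Matrix (Fin n) (Fin n) ℚ) : Matrix (Fin n) (Fin n) (PowerSeries ℚ) :=
  M.map fun x : ℚ => (C x : PowerSeries ℚ)

/-- the coefficients of index at most `k` and their common denominator are at most `K^(k+1)` -/
def IsGFunction (f : PowerSeries ℚ) : Prop :=
  ∃ K : ℕ, ∀ k : ℕ, |((coeff k f : ℚ) : ℝ)| ≤ (K : ℝ) ^ (k + 1) ∧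
    ∃ d : ℕ, 0 < d ∧ (d : ℝ) ≤ (K : ℝ) ^ (k + 1) ∧ ∀ j ≤ k, ∃ a : ℤ, (d : ℚ) * coeff j f = a

/-- The matrix `P(x) x^N` is the period matrix of a variation of Calabi–Yau type near `x = 0`, in symplectic bases: `P` is
symplectic, its entries are G-functions, and `x d/dx (P x^N) = (A / T) P x^N`, i.e. `T (x P' + P N) = A P`, for a matrix `A` of
polynomials and a polynomial `T ≠ 0`. -/
structure IsVariation {m : ℕ} (P : Matrix (Fin (2 * m)) (Fin (2 * m)) (PowerSeries ℚ)) : Prop where
  form : P * toPS (S (2 * m)) * P.transpose = toPS (S (2 * m))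
  gfun : ∀ i j, IsGFunction (P i j)
  ode : ∃ (T : Polynomial ℚ) (A : Matrix (Fin (2 * m)) (Fin (2 * m)) (Polynomial ℚ)), T ≠ 0 ∧ ∀ i j,
    (T : PowerSeries ℚ) * (X * d⁄dX ℚ (P i j) + (P * toPS (N (2 * m))) i j) = ∑ k, (A i k : PowerSeries ℚ) * P k j

/-- The algebraic monodromy group of the sum of the variations is the product of the symplectic groups: all polynomial
relations between the entries of the matrices `P_i`, with coefficients which are polynomials in `x`, hold for all `x` and for
all symplectic matrices. -/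
def MaximalMonodromy {r : ℕ} {m : Fin r → ℕ} (P : ∀ i, Matrix (Fin (2 * m i)) (Fin (2 * m i)) (PowerSeries ℚ)) : Prop :=
  ∀ F : MvPolynomial (Σ i, Fin (2 * m i) × Fin (2 * m i)) (Polynomial ℚ),
    MvPolynomial.aeval (fun v : Σ i, Fin (2 * m i) × Fin (2 * m i) => P v.1 v.2.1 v.2.2) F = 0 →
    ∀ (x : ℂ) (Z : ∀ i, Matrix (Fin (2 * m i)) (Fin (2 * m i)) ℂ),
      (∀ i, Z i * toC (S (2 * m i)) * (Z i).transpose = toC (S (2 * m i))) →
      MvPolynomial.eval₂ (Polynomial.aeval x : Polynomial ℚ →ₐ[ℚ] ℂ).toRingHom (fun v => Z v.1 v.2.1 v.2.2) F = 0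

/-- the value of a matrix of power series at `z` -/
noncomputable def val {n : ℕ} (P : Matrix (Fin n) (Fin n) (PowerSeries ℚ)) (z : ℂ) : Matrix (Fin n) (Fin n) ℂ :=
  Matrix.of fun i j => ∑' k : ℕ, ((coeff k (P i j) : ℚ) : ℂ) * z ^ k

/-- the matrix `exp (l N)`, that is `z^N` for `l = log z` -/
noncomputable def expN (n : ℕ) (l : ℂ) : Matrix (Fin n) (Fin n) ℂ :=
  ∑ a ∈ Finset.range n, (l ^ a / (a.factorial : ℂ)) • toC (N n) ^ a

/-- The base change `C` from the Frobenius basis to rational coordinates and the rational form `(v, w) ↦ v A wᵀ` on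
`ℚ^n` (row vectors) are a rational structure with a form: the logarithm `2 π i C⁻¹ N C` of the local monodromy is rational
and the form is proportional to the flat form `S`. -/
structure RationalStructure {n : ℕ} (C : Matrix (Fin n) (Fin n) ℂ) (A : Matrix (Fin n) (Fin n) ℚ) : Prop where
  det : C.det ≠ 0
  log : ∃ M : Matrix (Fin n) (Fin n) ℚ, C * toC M = (2 * (Real.pi : ℂ) * Complex.I) • (toC (N n) * C)
  form : ∃ κ : ℂ, κ ≠ 0 ∧ C * toC A * C.transpose = κ • toC (S n)

/-- `H p = H^{p, n-1-p}`, `p < n = 2m`, are the parts of a Hodge structure of weight `n - 1` on `ℚ^n`, polarised by `± A`,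
the steps `F^p = ⨁_{r ≥ p} H^{r, n-1-r}`, `p ≥ m`, of whose Hodge filtration are the spans of the first `n - p` rows of the
period matrix `P(z) z^N C` at the point `z`, with the value `l` of `log z` (the other steps are their orthogonal
complements). -/
structure IsFibre {m : ℕ} (P : Matrix (Fin (2 * m)) (Fin (2 * m)) (PowerSeries ℚ)) (z l : ℂ)
    (C : Matrix (Fin (2 * m)) (Fin (2 * m)) ℂ) (A : Matrix (Fin (2 * m)) (Fin (2 * m)) ℚ)
    (H : ℕ → Submodule ℂ (Fin (2 * m) → ℂ)) : Prop where
  fil : ∀ p, m ≤ p → (⨆ r : {r : ℕ // p ≤ r ∧ r < 2 * m}, H r) =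
    Submodule.span ℂ {v | ∃ i : Fin (2 * m), (i : ℕ) + p < 2 * m ∧ v = (val P z * expN (2 * m) l * C) i}
  conj : ∀ p < 2 * m, ∀ v ∈ H p, (fun i => star (v i)) ∈ H (2 * m - 1 - p)
  orth : ∀ p < 2 * m, ∀ r < 2 * m, p + r ≠ 2 * m - 1 → ∀ v ∈ H p, ∀ w ∈ H r,
    dotProduct v (Matrix.mulVec (toC A) w) = 0
  pos : ∃ ε : ℂ, (ε = 1 ∨ ε = -1) ∧ ∀ p < 2 * m, ∀ v ∈ H p, v ≠ 0 →
    0 < (ε * (Complex.I ^ p * (-Complex.I) ^ (2 * m - 1 - p)) *
      dotProduct v (Matrix.mulVec (toC A) fun i => star (v i))).re

/-- The Hodge operator `Φ` is the multiplication by `p` on `H^{p, n-1-p}`. Matrices act on row vectors from the right. -/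
def IsHodgeOperator {m : ℕ} (H : ℕ → Submodule ℂ (Fin (2 * m) → ℂ)) (Φ : Matrix (Fin (2 * m)) (Fin (2 * m)) ℂ) : Prop :=
  ∀ p < 2 * m, ∀ v ∈ H p, Matrix.vecMul v Φ = (p : ℂ) • v

/-- `ξ` is a root of a nonzero integral polynomial of degree at most `g` with coefficients of size at most `|ξ|^A` -/
def Height (g A : ℕ) (ξ : ℂ) : Prop :=
  ∃ p : Polynomial ℤ, p ≠ 0 ∧ p.natDegree ≤ g ∧ (∀ j, |(p.coeff j : ℝ)| ≤ ‖ξ‖ ^ A) ∧ Polynomial.aeval ξ p = 0

section
variable {s : ℕ} {m : Fin s → ℕ}

/-- The Hodge structures `H_a` on `ℚ^(2 m_a)` of weights `2 m_a - 1` are jointly Hodge generic: every rational Lie algebra of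
block diagonal matrices on `⨁_a ℚ^(2 m_a)` (given by the tuples of the blocks) whose complexification contains the Hodge
operator `(Φ_a)_a`, for example the Lie algebra of the Mumford–Tate group of the sum, contains the product of the
symplectic Lie algebras of the forms `A_a`. -/
def HodgeGeneric (A : ∀ a, Matrix (Fin (2 * m a)) (Fin (2 * m a)) ℚ)
    (H : ∀ a, ℕ → Submodule ℂ (Fin (2 * m a) → ℂ)) : Prop :=
  ∀ 𝔪 : Submodule ℚ (∀ a, Matrix (Fin (2 * m a)) (Fin (2 * m a)) ℚ),
    (∀ X ∈ 𝔪, ∀ Y ∈ 𝔪, (fun a => X a * Y a - Y a * X a) ∈ 𝔪) →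
    (∀ Φ : ∀ a, Matrix (Fin (2 * m a)) (Fin (2 * m a)) ℂ, (∀ a, IsHodgeOperator (H a) (Φ a)) →
      Φ ∈ Submodule.span ℂ ((fun X a => toC (X a)) '' (𝔪 : Set (∀ a, Matrix (Fin (2 * m a)) (Fin (2 * m a)) ℚ)))) →
    ∀ X : ∀ a, Matrix (Fin (2 * m a)) (Fin (2 * m a)) ℚ, (∀ a, X a * A a + A a * (X a).transpose = 0) → X ∈ 𝔪

end

/-- The sum of the fibres of the families with the numbers `c 1, …, c s` at the points `z 1, …, z s` is in the Hodge
locus for some choice of the rational structures: there are logarithms `l_a` of `z_a`, rational structures `(C_a, A_a)` and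
Hodge structures polarised by `± A_a` which are the fibres at `z_a` and are not jointly Hodge generic. -/
def Special {r : ℕ} {m : Fin r → ℕ} (P : ∀ i, Matrix (Fin (2 * m i)) (Fin (2 * m i)) (PowerSeries ℚ)) {s : ℕ}
    (c : Fin s → Fin r) (z : Fin s → ℂ) : Prop :=
  ∃ (l : Fin s → ℂ) (C : ∀ a, Matrix (Fin (2 * m (c a))) (Fin (2 * m (c a))) ℂ)
    (A : ∀ a, Matrix (Fin (2 * m (c a))) (Fin (2 * m (c a))) ℚ) (H : ∀ a, ℕ → Submodule ℂ (Fin (2 * m (c a)) → ℂ)),
    (∀ a, Complex.exp (l a) = z a) ∧ (∀ a, RationalStructure (C a) (A a)) ∧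
    (∀ a, IsFibre (P (c a)) (z a) (l a) (C a) (A a) (H a)) ∧ ¬ HodgeGeneric A H

theorem toC_eq {n : ℕ} (M : Matrix (Fin n) (Fin n) ℚ) : toC M = Pool.Agent.Y113.MT.cq M := rfl

theorem toC_N (n : ℕ) : toC (N n) = Pool.Agent.Y113.MT.NN ℂ n := by
  ext i j
  unfold toC N Pool.Agent.Y113.MT.NN
  rw [Matrix.map_apply, Matrix.of_apply, Matrix.of_apply]
  split_ifs <;> simp

theorem toC_S (n : ℕ) : toC (S n) = Pool.Agent.Y113.MT.SS ℂ n := W2helper4.CY.cq_SS n

theorem expN_eq (n : ℕ) (l : ℂ) : expN n l = Pool.Agent.Y119.HY.E (Pool.Agent.Y113.MT.NN ℂ n) l := by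
  unfold expN Pool.Agent.Y119.HY.E
  rw [toC_N]

theorem val_eq {n : ℕ} (P : Matrix (Fin n) (Fin n) (PowerSeries ℚ)) (z : ℂ) : val P z = W2helper4.CY.Mv P z := rfl

/-- the conditions in the form used in the library -/
theorem fv {m : ℕ} {P : Matrix (Fin (2 * m)) (Fin (2 * m)) (PowerSeries ℚ)} (h : IsVariation P) :
    W2helper4.CY.FV 1 P := by
  obtain ⟨T, A, hT, hode⟩ := h.ode
  refine ⟨W2helper4.CY.form_flip (W2helper4.CY.cM_SS_sq m) h.form, fun i j => ?_, ?_⟩
  · obtain ⟨K, hK⟩ := h.gfun i j
    exact W2helper4.CY.sdc_of_bound hK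
  · obtain ⟨D, q, hD, hq⟩ := W2helper4.CY.clear_fin (fun x : Option (Fin (2 * m) × Fin (2 * m)) =>
      x.elim T fun y => A y.1 y.2)
    have h1 : Y113.ps (q none) = C (D : ℚ) * (T : PowerSeries ℚ) := by
      unfold Y113.ps
      rw [hq, Polynomial.coe_mul, Polynomial.coe_C]
      rfl
    have h2 : ∀ i k, Y113.ps (q (some (i, k))) = C (D : ℚ) * (A i k : PowerSeries ℚ) := by
      intro i k
      unfold Y113.ps
      rw [hq, Polynomial.coe_mul, Polynomial.coe_C]
      rfl
    refine ⟨q none, fun i k => q (some (i, k)), ?_, fun i j => ?_⟩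
    · intro h0
      have h3 := hq none
      rw [h0, Polynomial.map_zero] at h3
      rcases mul_eq_zero.1 h3.symm with h4 | h4
      · rw [Polynomial.C_eq_zero] at h4
        exact hD (by exact_mod_cast h4)
      · exact hT h4
    · have h3 := hode i j
      rw [Matrix.mul_apply] at h3
      have h4 : ∀ k : Fin (2 * m), ((1 : ℕ) : ℚ) * Pool.Agent.Y113.MT.NN ℚ (2 * m) k j = N (2 * m) k j := by
        intro k
        rw [Nat.cast_one, one_mul]
        rfl
      simp only [h4, h1, h2]
      have h5 : ∑ k, P i k * C (N (2 * m) k j) = ∑ k, P i k * toPS (N (2 * m)) k j := rfl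
      rw [h5, mul_assoc, h3, Finset.mul_sum]
      exact Finset.sum_congr rfl fun k _ => by rw [mul_assoc]

theorem max_eq {r : ℕ} {m : Fin r → ℕ} {P : ∀ i, Matrix (Fin (2 * m i)) (Fin (2 * m i)) (PowerSeries ℚ)}
    (h : MaximalMonodromy P) : W2helper4.CY.Max P := by
  intro F hF x Z hZ
  refine h F hF x Z fun i => ?_
  rw [toC_S]
  exact W2helper4.CY.form_flip' (Pool.Agent.Y113.MT.SS_sq (m i)) (hZ i)

/-! ### the hypergeometric families -/

/-- the power series `x + ε` in the variable `ε` -/
noncomputable def shift (x : ℚ) : PowerSeries ℚ := C x + X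

/-- `a_k(ε) = ∏_{l < k} ∏_j (l + ε + β_j) (l + ε + 1 - β_j) / (l + 1 + ε)^2`. The series `∑_k a_k(ε) z^(k + ε)` satisfies
`(θ^n - z ∏_j (θ + β_j) (θ + 1 - β_j)) f = ε^n z^ε`, `θ = z d/dz`, `n = 2m`, hence its coefficients `f_j` at `ε^j` with
`j < n` are solutions of the homogeneous equation. -/
noncomputable def frob {m : ℕ} (β : Fin m → ℚ) (k : ℕ) : PowerSeries ℚ :=
  ∏ l ∈ Finset.range k, ∏ j, (shift (l + β j) * shift (l + 1 - β j) * ((shift (l + 1))⁻¹) ^ 2)

/-- `β` and `β'` agree up to a permutation and replacing some of the numbers `β` by `1 - β` (then the operators and the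
variations of Hodge structure agree) -/
def Equivalent {m m' : ℕ} (β : Fin m → ℚ) (β' : Fin m' → ℚ) : Prop :=
  ∃ e : Fin m ≃ Fin m', ∀ j, β j = β' (e j) ∨ β j = 1 - β' (e j)

theorem hyp_variation {m : ℕ} (hm : 1 ≤ m) {β : Fin m → ℚ} (hβ : ∀ j, ∀ a : ℤ, β j ≠ a) :
    IsVariation (W2helper4.CY.PH β) := by
  have hQ := Pool.Agent.Y119.HZ.QD_QB hm (W2helper4.HJ.not_int hβ)
  refine ⟨W2helper4.CY.form_flip' (W2helper4.CY.cM_SS_sq m) (W2helper4.CY.form_PH hQ), fun i j => ?_, ?_⟩
  · obtain ⟨n, h1, h2⟩ := W2helper4.CY.sdc_PH hm hβ i j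
    refine ⟨2 ^ n, fun k => ⟨?_, ?_⟩⟩
    · push_cast
      exact h1 k
    · push_cast
      exact h2 k
  · set B := Y118.CM.DN β * Pool.Agent.Y119.HY.Bm (2 * m) (Pool.Agent.Y119.HY.QB β) * (Y118.CM.DN β)⁻¹ with hB
    refine ⟨1 - Polynomial.X, Matrix.of fun i k => (1 - Polynomial.X) * Polynomial.C (N (2 * m) i k) +
      Polynomial.X * Polynomial.C (B i k), ?_, fun i j => ?_⟩
    · intro h0
      have := congrArg (Polynomial.eval 0) h0
      simp at this
    · have h1 := congrFun (congrFun (W2helper4.CY.ode_PH hQ) i) j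
      rw [Matrix.smul_apply, Matrix.add_apply, smul_eq_mul] at h1
      have h2 : ((1 - Polynomial.X : Polynomial ℚ) : PowerSeries ℚ) = 1 - X := by
        rw [Polynomial.coe_sub, Polynomial.coe_one, Polynomial.coe_X]
      rw [h2]
      refine h1.trans ?_
      rw [Matrix.mul_apply]
      refine Finset.sum_congr rfl fun k _ => ?_
      rw [Matrix.of_apply, Polynomial.coe_add, Polynomial.coe_mul, Polynomial.coe_mul, h2, Polynomial.coe_X,
        Polynomial.coe_C, Polynomial.coe_C]
      rfl

theorem hyp_max {r : ℕ} {m : Fin r → ℕ} (hm : ∀ i, 1 ≤ m i) (β : ∀ i, Fin (m i) → ℚ)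
    (hβ : ∀ i j, 0 < β i j ∧ β i j < 1) (hne : ∀ i k, i ≠ k → ¬ Equivalent (β i) (β k)) :
    MaximalMonodromy fun i => W2helper4.CY.PH (β i) := by
  have hβ' : ∀ i j, ∀ a : ℤ, β i j ≠ a := by
    intro i j a h
    have h1 := hβ i j
    rw [h] at h1
    have h2 : (0 : ℤ) < a := by exact_mod_cast h1.1
    have h3 : a < (1 : ℤ) := by exact_mod_cast h1.2
    omega
  have hne' : ∀ i k, i ≠ k → ¬ W2helper4.HJ.Eqv (β i) (β k) := by
    rintro i k hik ⟨e, he⟩
    refine hne i k hik ⟨e, fun j => ?_⟩
    obtain ⟨a, ha⟩ := he j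
    have h1 := hβ i j
    have h2 := hβ k (e j)
    rcases ha with ha | ha
    · left
      have h3 : (-1 : ℚ) < a := by linarith
      have h4 : (a : ℚ) < 1 := by linarith
      have h5 : -1 < a := by exact_mod_cast h3
      have h6 : a < 1 := by exact_mod_cast h4
      have h7 : a = 0 := by omega
      rw [ha, h7]
      simp
    · right
      have h3 : (0 : ℚ) < a := by linarith
      have h4 : (a : ℚ) < 2 := by linarith
      have h5 : 0 < a := by exact_mod_cast h3
      have h6 : a < 2 := by exact_mod_cast h4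
      have h7 : a = 1 := by omega
      rw [ha, h7]
      simp
  intro F hF x Z hZ
  refine W2helper4.CY.max_PH hm β hβ' hne' F hF x Z fun i => W2helper4.CY.form_flip (Pool.Agent.Y113.MT.SS_sq (m i)) ?_
  rw [← toC_S]
  exact hZ i

/-- **The hypergeometric families are examples.** Let `β_1, …, β_r` be pairwise inequivalent tuples of rational numbers in
`(0, 1)`. There are matrices `P_i` which satisfy all conditions, such that the first `m_i` rows of `P_i(x) x^N` (they determine
the Hodge filtration) are the derivatives `θ^a (f_0, …, f_(2 m_i - 1))`, `a < m_i`, of the Frobenius basis of the equation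
`θ^(2 m_i) - x ∏_j (θ + β_ij) (θ + 1 - β_ij)`. -/
theorem hypergeometric {r : ℕ} (m : Fin r → ℕ) (β : ∀ i, Fin (m i) → ℚ) (hm : ∀ i, 1 ≤ m i)
    (hβ : ∀ i j, 0 < β i j ∧ β i j < 1) (hne : ∀ i k, i ≠ k → ¬ Equivalent (β i) (β k)) :
    ∃ P : ∀ i, Matrix (Fin (2 * m i)) (Fin (2 * m i)) (PowerSeries ℚ), (∀ i, IsVariation (P i)) ∧ MaximalMonodromy P ∧
      ∀ i (a b : Fin (2 * m i)), (a : ℕ) < m i → ∀ k : ℕ,
        coeff k (P i a b) = coeff (b : ℕ) (shift (k : ℚ) ^ (a : ℕ) * frob (β i) k) := by
  have hβ' : ∀ i j, ∀ a : ℤ, β i j ≠ a := by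
    intro i j a h
    have h1 := hβ i j
    rw [h] at h1
    have h2 : (0 : ℤ) < a := by exact_mod_cast h1.1
    have h3 : a < (1 : ℤ) := by exact_mod_cast h1.2
    omega
  refine ⟨fun i => W2helper4.CY.PH (β i), fun i => hyp_variation (hm i) (hβ' i), hyp_max hm β hβ hne,
    fun i a b ha k => ?_⟩
  exact W2helper4.CY.row_PH (Pool.Agent.Y119.HZ.QD_QB (hm i) (W2helper4.HJ.not_int (hβ' i))) ha b k

/-- Let `V_1, …, V_r` be variations of Calabi–Yau type of ranks `2 m_i ≥ 8`, given by the matrices `P_i`, with the full product of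
the symplectic groups as joint monodromy group. There are `R ≥ 1` and `G0` such that the power series converge for `|z| < 1 / R`,
and for all `G ≥ G0`, `g` and `A₀`:
(1) There is `E` such that for all `B` and all algebraic numbers `ξ` of degree `≤ g` and of height `≤ |ξ|^A₀` with
`(B + 2)^E ≤ |ξ|` all sums of fibres at the points `1 / (ξ - G u)`, `0 ≤ u ≤ B`, with pairwise different pairs of the family and
the point, are Hodge generic, for all polarised rational structures.
(2) For all `B` only finitely many algebraic numbers `ξ` of degree `≤ g` and of height `≤ |ξ|^A₀`, for which the points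
`1 / (ξ - G u)`, `0 ≤ u ≤ B`, are in the disc `|z| < 1 / R`, are such that some sum of fibres at these points, with pairwise
different pairs of the family and the point, is in the Hodge locus for some polarised rational structures. For `B = 0` this is
about sums of fibres of different families at the point `1 / ξ`, for example the fibre of `V_1 ⊕ ⋯ ⊕ V_r`.
(3) Only finitely many algebraic integers `ξ` of degree `≤ g` are such that for all conjugates `ξ'` with `|ξ'| > R` a sum of
fibres of different families at the point `1 / ξ'` is in the Hodge locus for some polarised rational structures. -/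
theorem result {r : ℕ} (m : Fin r → ℕ) (hm : ∀ i, 4 ≤ m i)
    (P : ∀ i, Matrix (Fin (2 * m i)) (Fin (2 * m i)) (PowerSeries ℚ)) (hP : ∀ i, IsVariation (P i))
    (hmax : MaximalMonodromy P) :
    ∃ R G0 : ℕ, 1 ≤ R ∧ (∀ (z : ℂ), (R : ℝ) * ‖z‖ < 1 → ∀ i a b,
      Summable fun k : ℕ => ((coeff k (P i a b) : ℚ) : ℂ) * z ^ k) ∧
    (∀ G : ℕ, G0 ≤ G → ∀ g A₀ : ℕ,
      (∃ E : ℕ, ∀ (B : ℕ) (ξ : ℂ), ((B : ℝ) + 2) ^ E ≤ ‖ξ‖ → Height g A₀ ξ →
        (∀ u : ℕ, u ≤ B → (R : ℝ) < ‖ξ - ((G * u : ℕ) : ℂ)‖) ∧
        ∀ (s : ℕ) (c : Fin s → Fin r) (u : Fin s → ℕ), (∀ a, u a ≤ B) → Function.Injective (fun a => (u a, c a)) →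
          ¬ Special P c (fun a => 1 / (ξ - ((G * u a : ℕ) : ℂ)))) ∧
      (∀ B : ℕ, {ξ : ℂ | (∀ u : ℕ, u ≤ B → (R : ℝ) < ‖ξ - ((G * u : ℕ) : ℂ)‖) ∧ Height g A₀ ξ ∧
        ∃ (s : ℕ) (c : Fin s → Fin r) (u : Fin s → ℕ), (∀ a, u a ≤ B) ∧ Function.Injective (fun a => (u a, c a)) ∧
          Special P c (fun a => 1 / (ξ - ((G * u a : ℕ) : ℂ)))}.Finite)) ∧
    (∀ g : ℕ, {ξ : ℂ | IsIntegral ℤ ξ ∧ (minpoly ℚ ξ).natDegree ≤ g ∧
      ∀ ξ' : ℂ, Polynomial.aeval ξ' (minpoly ℚ ξ) = 0 → (R : ℝ) < ‖ξ'‖ →
        ∃ (s : ℕ) (c : Fin s → Fin r), Function.Injective c ∧ Special P c (fun _ => 1 / ξ')}.Finite) := by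
  have hpi : (2 * (Real.pi : ℂ) * Complex.I) ≠ 0 := Complex.two_pi_I_ne_zero
  obtain ⟨G0, hG0, b₀, hb₀, hmt⟩ := W2helper4.CY.mt_cy0 hm (fun i => fv (hP i)) (max_eq hmax)
  have key : ∀ G : ℕ, G0 ≤ G → ∀ g A₀ : ℕ, ∃ E : ℕ, ∀ (B : ℕ) (ξ : ℂ), ((B : ℝ) + 2) ^ E ≤ ‖ξ‖ → Height g A₀ ξ →
        (∀ u : ℕ, u ≤ B → ((b₀ + 1 : ℕ) : ℝ) < ‖ξ - ((G * u : ℕ) : ℂ)‖) ∧
        ∀ (s : ℕ) (c : Fin s → Fin r) (u : Fin s → ℕ), (∀ a, u a ≤ B) → Function.Injective (fun a => (u a, c a)) →
          ¬ Special P c (fun a => 1 / (ξ - ((G * u a : ℕ) : ℂ))) := by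
    intro G hG g A₀
    obtain ⟨E, hE⟩ := hmt G hG g A₀
    refine ⟨E, fun B ξ hξ hht => ?_⟩
    obtain ⟨h1, h2⟩ := hE B ξ hξ hht
    refine ⟨fun u hu => ?_, ?_⟩
    · have h3 := norm_sub_norm_le ξ ((G * u : ℕ) : ℂ)
      rw [Complex.norm_natCast] at h3
      have h4 : ((G * u : ℕ) : ℝ) ≤ G * B := by
        push_cast
        exact mul_le_mul_of_nonneg_left (by exact_mod_cast hu) (Nat.cast_nonneg G)
      push_cast
      push_cast at h3 h4
      linarith
    · rintro s c u hub hinj ⟨l, C, A, H, -, hR, hH, hgen⟩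
      choose M hM using fun a => (hR a).log
      choose κ hκ hκA using fun a => (hR a).form
      have hM' : ∀ a, C a * Pool.Agent.Y113.MT.cq (M a) =
          (2 * (Real.pi : ℂ) * Complex.I) • (Pool.Agent.Y113.MT.NN ℂ (2 * m (c a)) * C a) := by
        intro a
        rw [← toC_N]
        exact hM a
      have hA' : ∀ a, C a * Pool.Agent.Y113.MT.cq (A a) * (C a).transpose =
          κ a • Pool.Agent.Y113.MT.SS ℂ (2 * m (c a)) := by
        intro a
        rw [← toC_S]
        exact hκA a
      have htw := fun a => W2helper4.CY.twist (l a) (hR a).det (hM' a) (hA' a)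
      have hmain := h2 s c u hub (fun a a' haa hc hu => haa (hinj (Prod.ext hu hc)))
        (fun a => Pool.Agent.Y119.HY.E (Pool.Agent.Y113.MT.NN ℂ (2 * m (c a))) (l a) * C a) M A (fun _ => _) κ
        (fun a => (htw a).1) (fun _ => hpi) (fun a => (htw a).2.1) hκ (fun a => (htw a).2.2)
        (fun a p => ⨆ r : {r : ℕ // p ≤ r ∧ r < 2 * m (c a)}, H a r) H
        (fun a p hp => ?_) (fun a => ⟨fun _ => rfl, (hH a).conj, (hH a).orth, (hH a).pos⟩)
      · exact hgen fun 𝔪 hbr hΦ X hX => hmain 𝔪 hbr hΦ X hX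
      · show (⨆ r : {r : ℕ // p ≤ r ∧ r < 2 * m (c a)}, H a r) = _
        rw [(hH a).fil p hp]
        congr 1
        ext v
        have h5 : ∀ i, (val (P (c a)) (1 / (ξ - ((G * u a : ℕ) : ℂ))) * expN (2 * m (c a)) (l a) * C a) i =
            Matrix.vecMul (W2helper4.CY.Mv (P (c a)) (1 / (ξ - ((G * u a : ℕ) : ℂ))) i)
              (Pool.Agent.Y119.HY.E (Pool.Agent.Y113.MT.NN ℂ (2 * m (c a))) (l a) * C a) := by
          intro i
          rw [Matrix.mul_assoc, expN_eq, val_eq]
          rfl
        simp only [h5]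
  refine ⟨b₀ + 1, G0, by omega, fun z hz i a b => ?_, fun G hG g A₀ => ⟨key G hG g A₀, fun B => ?_⟩, fun g => ?_⟩
  · by_cases hz0 : z = 0
    · subst hz0
      refine summable_of_ne_finset_zero (s := {0}) fun k hk => ?_
      rw [Finset.mem_singleton] at hk
      rw [zero_pow hk, mul_zero]
    · have h1 := hb₀ (1 / z) (by
        rw [norm_div, norm_one, lt_div_iff₀ (norm_pos_iff.2 hz0)]
        push_cast at hz
        have := norm_nonneg z
        nlinarith) i a b
      rw [one_div_one_div] at h1
      refine Summable.of_norm ?_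
      refine h1.congr fun k => ?_
      rw [norm_mul, norm_pow]
  · obtain ⟨E, hE⟩ := key G hG g A₀
    refine (Y119.HA.finite_ht g A₀ ((B + 2) ^ E) (fun ξ => ¬ ∃ (s : ℕ) (c : Fin s → Fin r) (u : Fin s → ℕ),
      (∀ a, u a ≤ B) ∧ Function.Injective (fun a => (u a, c a)) ∧
        Special P c (fun a => 1 / (ξ - ((G * u a : ℕ) : ℂ)))) (fun ξ hξ hht => ?_)).subset ?_
    · push_cast at hξ
      rintro ⟨s, c, u, hu, hinj, hsp⟩
      exact (hE B ξ hξ hht).2 s c u hu hinj hsp
    · rintro ξ ⟨h1, h2, h3⟩
      refine ⟨?_, h2, not_not.2 h3⟩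
      have h4 := h1 0 (Nat.zero_le B)
      rw [Nat.mul_zero, Nat.cast_zero, sub_zero] at h4
      refine lt_of_le_of_lt ?_ h4
      push_cast
      have : (0 : ℝ) ≤ b₀ := Nat.cast_nonneg b₀
      linarith
  · obtain ⟨E, hE⟩ := key G0 le_rfl g (2 * g)
    refine (Y119.HA.finite_conj g (2 ^ E + (b₀ + 2)) (fun ξ => (((b₀ + 1 : ℕ) : ℝ) < ‖ξ‖) ∧
      ¬ ∃ (s : ℕ) (c : Fin s → Fin r), Function.Injective c ∧ Special P c (fun _ => 1 / ξ))
      (fun ξ hξ hht => ⟨?_, ?_⟩)).subset ?_
    · refine lt_of_lt_of_le ?_ hξ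
      push_cast
      have : (0 : ℝ) < 2 ^ E := by positivity
      linarith
    · rintro ⟨s, c, hinj, hsp⟩
      refine (hE 0 ξ ?_ hht).2 s c (fun _ => 0) (fun _ => le_rfl) (fun a a' h => hinj (congrArg Prod.snd h)) ?_
      · rw [Nat.cast_zero, zero_add]
        push_cast at hξ
        have : (0 : ℝ) ≤ b₀ := Nat.cast_nonneg b₀
        linarith
      · simp only [Nat.mul_zero, Nat.cast_zero, sub_zero]
        exact hsp
    · rintro ξ ⟨h1, h2, h3⟩
      refine ⟨h1, h2, fun ξ' hr h1' hP' => hP'.2 (h3 ξ' hr hP'.1)⟩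

end Pool.Agent.Results.MP_0704bf_ag.CalabiYauVariations
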