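import Pool.Agent.W2helper4.MJ.Cnt
import Pool.Agent.Y119.HA.Nor

/-!
# The Hodge locus of products of hypergeometric variations of Hodge structure of Calabi–Yau type

Let `β_1, …, β_m` be rational numbers in `(0, 1)` and `θ = z d/dz`. The hypergeometric operator
`θ^(2m) - z ∏_j (θ + β_j) (θ + 1 - β_j)` has maximally unipotent monodromy at `z = 0` and underlies an irreducible
variation of Hodge structure `V_β` of rank `2m` and of weight `2m - 1` with all Hodge numbers `h^{p,q} = 1` on the
projective line minus three points `X`, with generic Mumford–Tate group `GSp(2m)`; it is defined over `ℚ` if the set of the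
`exp (2 π i β_j)^{±1}` with multiplicities is Galois stable.

Let `β_1, …, β_r` be such tuples, of any lengths `m_i ≥ 4`, pairwise inequivalent (not the same up to a permutation and
replacing some of the numbers by `1 - β`). For every `c : {1, …, k} → {1, …, r}` the external sum
`V_(c(1)) ⊞ ⋯ ⊞ V_(c(k))` is a variation of Hodge structure on the product `X^k`; its generic Mumford–Tate group is as large as
the weights permit, and a point of `X^k` is Hodge generic if and only if the Lie algebra of the Mumford–Tate group of the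
sum of the fibres contains the whole product of the symplectic Lie algebras. All special points are atypical. We prove:

(1) For all large `G` the points `(1 / (ξ - G u_1), …, 1 / (ξ - G u_k))`, with pairwise different `1 ≤ u_j ≤ B`, are Hodge generic
for all algebraic numbers `ξ` of bounded degree and of height at most a power of `|ξ|` with `(B + 2)^E ≤ |ξ|`, where `E`
depends only on `G`, the degree and the exponent of the height, but not on `k`: there are no exceptional indices `u`. In
particular, on the curve in `X^k` given by fixed `u_1, …, u_k` only finitely many of these points are in the Hodge locus.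

(2) Of the tuples `(ξ_1, …, ξ_k)` of algebraic integers of degree at most `g` with all conjugates of absolute value at
most `T`, at most the proportion `K T^(-c)` is in the Hodge locus of the external sum of the sums `V_1 ⊕ ⋯ ⊕ V_r` of all the
families in each of the `k` variables. The constants depend only on the families, on `k` and on `g`.

All statements are uniform in all polarised rational structures, which can be different for all the summands and points.
The starting files `HypergeometricAlgebraicGeneric` and `HodgeAlgebraicWindows` are about one fibre; `HodgeTuples`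
(MP_0da4e0_ag) considers several fibres of one family with the same rational structure at integral points, with an
exceptional set of `m + 2` indices.

Proof. The relations of bounded degree between the entries of the holomorphic parts of the solutions at the points hold on
the product of the symplectic groups, by the theorems of helper916 on values of G-functions at algebraic points and the
density of the joint monodromy group of inequivalent families (`Pool/Agent/W2helper4/HJ`, `MJ/Fib`, `MJ/Cnt`). For two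
fibres of the same rank we pass to an ultraproduct. There are derivations which kill the holomorphic part of the second
fibre, and move the one of the first by any rank one element. If the Lie algebra of the Mumford–Tate group had no element
`(X, 0)` then the velocities of the first Hodge operator would be determined by those of the second one, which lie in a
space of dimension `m + 1`, but they span a space of dimension at least `3 m - 5` (`MJ/Pair`). For fibres of different
ranks we compare dimensions, and conclude with the lemma of Goursat, Kolchin and Ribet (`MJ/Lie`).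
-/

set_option autoImplicit false

open PowerSeries

namespace Pool.Agent.Results.MP_0704bf_ag.ProductsOfVariations

/-- the power series `x + ε` in the variable `ε` -/
noncomputable def shift (x : ℚ) : PowerSeries ℚ := C x + X

/-- `a_k(ε) = ∏_{l < k} ∏_j (l + ε + β_j) (l + ε + 1 - β_j) / (l + 1 + ε)^2`. The series `∑_k a_k(ε) z^(k + ε)` satisfies
`(θ^n - z ∏_j (θ + β_j) (θ + 1 - β_j)) f = ε^n z^ε`, `n = 2m`, hence its coefficients `f_j` at `ε^j` with `j < n` are
solutions of the homogeneous equation. -/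
noncomputable def frob {m : ℕ} (β : Fin m → ℚ) (k : ℕ) : PowerSeries ℚ :=
  ∏ l ∈ Finset.range k, ∏ j, (shift (l + β j) * shift (l + 1 - β j) * ((shift (l + 1))⁻¹) ^ 2)

/-- The row `((θ^i f_j)(1 / ξ))_j`, where `f_j(z)` is the coefficient of `ε^j` in the series `∑_k a_k(ε) z^(k + ε)`,
`z^ε = ∑_a (log z)^a ε^a / a!`, with the value `-l` of `log z`, where `exp l = ξ`. -/
noncomputable def per {m : ℕ} (β : Fin m → ℚ) (ξ l : ℂ) (i : ℕ) : Fin (2 * m) → ℂ := fun j =>
  ∑ a ∈ Finset.range ((j : ℕ) + 1), (-l) ^ a / (a.factorial : ℂ) *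
    ∑' k : ℕ, ((coeff ((j : ℕ) - a) (shift k ^ i * frob β k) : ℚ) : ℂ) * (1 / ξ) ^ k

/-- The nilpotent matrix: `exp (2 π i N)` is the local monodromy at `z = 0` in the basis `f_0, …, f_{n-1}`. -/
def N (n : ℕ) : Matrix (Fin n) (Fin n) ℂ := Matrix.of fun i j => if (j : ℕ) = i + 1 then 1 else 0

/-- the matrix of the flat alternating form in the Frobenius basis -/
def S (n : ℕ) : Matrix (Fin n) (Fin n) ℂ := Matrix.of fun i j => if (i : ℕ) + j + 1 = n then (-1) ^ (i : ℕ) else 0

/-- a rational matrix as a complex matrix -/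
def toC {n : ℕ} (M : Matrix (Fin n) (Fin n) ℚ) : Matrix (Fin n) (Fin n) ℂ := M.map fun x : ℚ => (x : ℂ)

/-- The base change `C` from the Frobenius basis to rational coordinates and the rational form `(v, w) ↦ v A wᵀ` on
`ℚ^n` (row vectors) are a rational structure with a form: the logarithm `2 π i C⁻¹ N C` of the local monodromy is rational
and the form is proportional to the flat form `S`. -/
structure RationalStructure {n : ℕ} (C : Matrix (Fin n) (Fin n) ℂ) (A : Matrix (Fin n) (Fin n) ℚ) : Prop where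
  det : C.det ≠ 0
  log : ∃ M : Matrix (Fin n) (Fin n) ℚ, C * toC M = (2 * (Real.pi : ℂ) * Complex.I) • (N n * C)
  form : ∃ κ : ℂ, κ ≠ 0 ∧ C * toC A * C.transpose = κ • S n

/-- `H p = H^{p, n-1-p}`, `p < n = 2m`, are the parts of a Hodge structure of weight `n - 1` on `ℚ^n`, polarised by `± A`,
the steps `F^p = ⨁_{r ≥ p} H^{r, n-1-r}`, `p ≥ m`, of whose Hodge filtration are the spans of the derivatives of order
`< n - p` of the period vector at the point `z = 1 / ξ` (the other steps are their orthogonal complements). -/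
structure IsFibre {m : ℕ} (β : Fin m → ℚ) (ξ l : ℂ) (C : Matrix (Fin (2 * m)) (Fin (2 * m)) ℂ)
    (A : Matrix (Fin (2 * m)) (Fin (2 * m)) ℚ) (H : ℕ → Submodule ℂ (Fin (2 * m) → ℂ)) : Prop where
  fil : ∀ p, m ≤ p → (⨆ r : {r : ℕ // p ≤ r ∧ r < 2 * m}, H r) =
    Submodule.span ℂ {v | ∃ i : ℕ, i + p < 2 * m ∧ v = Matrix.vecMul (per β ξ l i) C}
  conj : ∀ p < 2 * m, ∀ v ∈ H p, (fun i => star (v i)) ∈ H (2 * m - 1 - p)
  orth : ∀ p < 2 * m, ∀ r < 2 * m, p + r ≠ 2 * m - 1 → ∀ v ∈ H p, ∀ w ∈ H r,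
    dotProduct v (Matrix.mulVec (toC A) w) = 0
  pos : ∃ ε : ℂ, (ε = 1 ∨ ε = -1) ∧ ∀ p < 2 * m, ∀ v ∈ H p, v ≠ 0 →
    0 < (ε * (Complex.I ^ p * (-Complex.I) ^ (2 * m - 1 - p)) *
      dotProduct v (Matrix.mulVec (toC A) fun i => star (v i))).re

/-- The Hodge operator `Φ` is the multiplication by `p` on `H^{p, n-1-p}`. Matrices act on row vectors from the right. -/
def IsHodgeOperator {m : ℕ} (H : ℕ → Submodule ℂ (Fin (2 * m) → ℂ)) (Φ : Matrix (Fin (2 * m)) (Fin (2 * m)) ℂ) : Prop :=
  ∀ p < 2 * m, ∀ v ∈ H p, Matrix.vecMul v Φ = (p : ℂ) • v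

/-- `ξ` is a root of a nonzero integral polynomial of degree at most `g` with coefficients of size at most `|ξ|^A` -/
def Height (g A : ℕ) (ξ : ℂ) : Prop :=
  ∃ p : Polynomial ℤ, p ≠ 0 ∧ p.natDegree ≤ g ∧ (∀ j, |(p.coeff j : ℝ)| ≤ ‖ξ‖ ^ A) ∧ Polynomial.aeval ξ p = 0

/-- `β` and `β'` agree up to a permutation and replacing some of the numbers `β` by `1 - β` (then the operators and the
variations of Hodge structure agree) -/
def Equivalent {m m' : ℕ} (β : Fin m → ℚ) (β' : Fin m' → ℚ) : Prop :=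
  ∃ e : Fin m ≃ Fin m', ∀ j, β j = β' (e j) ∨ β j = 1 - β' (e j)

/-- `ξ` is an algebraic integer of degree at most `g` all of whose conjugates have absolute value at most `T` -/
def House (g T : ℕ) (ξ : ℂ) : Prop :=
  IsIntegral ℤ ξ ∧ (minpoly ℚ ξ).natDegree ≤ g ∧ ∀ z : ℂ, Polynomial.aeval z (minpoly ℚ ξ) = 0 → ‖z‖ ≤ T

section
variable {s : ℕ} {m : Fin s → ℕ}

/-- The Hodge structures `H_a` on `ℚ^(2 m_a)` of weights `2 m_a - 1` are jointly Hodge generic: every rational Lie algebra of
block diagonal matrices on `⨁_a ℚ^(2 m_a)` (given by the tuples of the blocks) whose complexification contains the Hodge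
operator `(Φ_a)_a`, for example the Lie algebra of the Mumford–Tate group of the sum, contains the product of the
symplectic Lie algebras of the forms `A_a`. -/
def HodgeGeneric (A : ∀ a, Matrix (Fin (2 * m a)) (Fin (2 * m a)) ℚ)
    (H : ∀ a, ℕ → Submodule ℂ (Fin (2 * m a) → ℂ)) : Prop :=
  ∀ 𝔪 : Submodule ℚ (∀ a, Matrix (Fin (2 * m a)) (Fin (2 * m a)) ℚ),
    (∀ X ∈ 𝔪, ∀ Y ∈ 𝔪, (fun a => X a * Y a - Y a * X a) ∈ 𝔪) →
    (∀ Φ : ∀ a, Matrix (Fin (2 * m a)) (Fin (2 * m a)) ℂ, (∀ a, IsHodgeOperator (H a) (Φ a)) →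
      Φ ∈ Submodule.span ℂ ((fun X a => toC (X a)) '' (𝔪 : Set (∀ a, Matrix (Fin (2 * m a)) (Fin (2 * m a)) ℚ)))) →
    ∀ X : ∀ a, Matrix (Fin (2 * m a)) (Fin (2 * m a)) ℚ, (∀ a, X a * A a + A a * (X a).transpose = 0) → X ∈ 𝔪

end

/-- The sum of the fibres of the families with the numbers `c 1, …, c s` at the points `1 / ξ 1, …, 1 / ξ s` is in the Hodge
locus for some choice of the rational structures: there are logarithms `l_a` of `ξ_a`, rational structures `(C_a, A_a)` and
Hodge structures polarised by `± A_a` which are the fibres at `1 / ξ_a` and are not jointly Hodge generic. -/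
def Special {r : ℕ} {m : Fin r → ℕ} (β : ∀ i, Fin (m i) → ℚ) {s : ℕ} (c : Fin s → Fin r) (ξ : Fin s → ℂ) : Prop :=
  ∃ (l : Fin s → ℂ) (C : ∀ a, Matrix (Fin (2 * m (c a))) (Fin (2 * m (c a))) ℂ)
    (A : ∀ a, Matrix (Fin (2 * m (c a))) (Fin (2 * m (c a))) ℚ) (H : ∀ a, ℕ → Submodule ℂ (Fin (2 * m (c a)) → ℂ)),
    (∀ a, Complex.exp (l a) = ξ a) ∧ (∀ a, RationalStructure (C a) (A a)) ∧
    (∀ a, IsFibre (β (c a)) (ξ a) (l a) (C a) (A a) (H a)) ∧ ¬ HodgeGeneric A H

theorem N_eq (n : ℕ) : N n = Pool.Agent.Y113.MT.NN ℂ n := rfl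

theorem S_eq (n : ℕ) : S n = Pool.Agent.Y113.MT.SS ℂ n := rfl

theorem toC_eq {n : ℕ} (M : Matrix (Fin n) (Fin n) ℚ) : toC M = Pool.Agent.Y113.MT.cq M := rfl

/-- Let `β_1, …, β_r` be pairwise inequivalent tuples of rational numbers in `(0, 1)`, of lengths `m_i ≥ 4`.
(1) For all sufficiently large `G` and all `g`, `A₀` there is `E` such that for all `B`, all algebraic numbers `ξ` of degree
`≤ g` and of height `≤ |ξ|^A₀` with `(B + 2)^E ≤ |ξ|`, all `k`, all families `c 1, …, c k` and all pairwise different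
`u_1, …, u_k ∈ {1, …, B}` the sum of the fibres of the families `c j` at the points `1 / (ξ - G u_j)` is Hodge generic, for all
polarised rational structures.
(2) For these `G`, all `k`, families `c 1, …, c k` and pairwise different `u_1, …, u_k ≥ 1`, all `g` and `A₀`, only finitely
many algebraic numbers `ξ`, `|ξ| > 1`, of degree `≤ g` and of height `≤ |ξ|^A₀` are such that the point
`(1 / (ξ - G u_1), …, 1 / (ξ - G u_k))` is in the Hodge locus for some polarised rational structures.
(3) For all `k` and `g ≥ 1` there are `c₀ > 0` and `K` such that for all `T ≥ 1` at most `K T^(-c₀) M^k` of the `M^k` tuples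
`(ξ_1, …, ξ_k)` of algebraic integers of degree `≤ g` with all conjugates of absolute value `≤ T` satisfy `|ξ_j| > 1` for all `j`
and are such that for some polarised rational structures a sum of fibres of different families `c a` or at different points
`1 / ξ_(p a)` (with pairwise different pairs `(p a, c a)`) is not Hodge generic. -/
theorem result {r : ℕ} (m : Fin r → ℕ) (hm : ∀ i, 4 ≤ m i) (β : ∀ i, Fin (m i) → ℚ)
    (hβ : ∀ i j, 0 < β i j ∧ β i j < 1) (hne : ∀ i k, i ≠ k → ¬ Equivalent (β i) (β k)) :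
    (∃ G0 : ℕ, ∀ G : ℕ, G0 ≤ G →
      (∀ g A₀ : ℕ, ∃ E : ℕ, ∀ (B : ℕ) (ξ : ℂ), ((B : ℝ) + 2) ^ E ≤ ‖ξ‖ → Height g A₀ ξ →
        (∀ u : ℕ, u ≤ B → 1 < ‖ξ - ((G * u : ℕ) : ℂ)‖) ∧
        ∀ (k : ℕ) (c : Fin k → Fin r) (u : Fin k → ℕ), Function.Injective u → (∀ j, 1 ≤ u j ∧ u j ≤ B) →
          ¬ Special β c (fun j => ξ - ((G * u j : ℕ) : ℂ))) ∧
      (∀ (k : ℕ) (c : Fin k → Fin r) (u : Fin k → ℕ), Function.Injective u → (∀ j, 1 ≤ u j) → ∀ g A₀ : ℕ,
        {ξ : ℂ | 1 < ‖ξ‖ ∧ Height g A₀ ξ ∧ Special β c (fun j => ξ - ((G * u j : ℕ) : ℂ))}.Finite)) ∧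
    (∀ k g : ℕ, 1 ≤ g → ∃ c₀ K : ℝ, 0 < c₀ ∧ ∀ T : ℕ, 1 ≤ T →
      {ξ : Fin k → ℂ | (∀ j, House g T (ξ j)) ∧ (∀ j, 1 < ‖ξ j‖) ∧ ∃ (s : ℕ) (c : Fin s → Fin r) (p : Fin s → Fin k),
        Function.Injective (fun a => (p a, c a)) ∧ Special β c (fun a => ξ (p a))}.Finite ∧
      ({ξ : Fin k → ℂ | (∀ j, House g T (ξ j)) ∧ (∀ j, 1 < ‖ξ j‖) ∧ ∃ (s : ℕ) (c : Fin s → Fin r) (p : Fin s → Fin k),
        Function.Injective (fun a => (p a, c a)) ∧ Special β c (fun a => ξ (p a))}.ncard : ℝ) ≤
        K * (T : ℝ) ^ (-c₀) * ({ξ : ℂ | House g T ξ}.ncard : ℝ) ^ k) := by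
  have hβ' : ∀ i j, ∀ a : ℤ, β i j ≠ a := by
    intro i j a h
    have h1 := hβ i j
    rw [h] at h1
    have h2 : (0 : ℤ) < a := by exact_mod_cast h1.1
    have h3 : a < (1 : ℤ) := by exact_mod_cast h1.2
    omega
  have hne' : ∀ i k, i ≠ k → ¬ W2helper4.HJ.Eqv (β i) (β k) := by
    rintro i k hik ⟨e, he⟩
    refine hne i k hik ⟨e, fun j => ?_⟩
    obtain ⟨a, ha⟩ := he j
    have h1 := hβ i j
    have h2 := hβ k (e j)
    rcases ha with ha | ha
    · left
      have h3 : (-1 : ℚ) < a := by linarith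
      have h4 : (a : ℚ) < 1 := by linarith
      have h5 : -1 < a := by exact_mod_cast h3
      have h6 : a < 1 := by exact_mod_cast h4
      have h7 : a = 0 := by omega
      rw [ha, h7]
      simp
    · right
      have h3 : (0 : ℚ) < a := by linarith
      have h4 : (a : ℚ) < 2 := by linarith
      have h5 : 0 < a := by exact_mod_cast h3
      have h6 : a < 2 := by exact_mod_cast h4
      have h7 : a = 1 := by omega
      rw [ha, h7]
      simp
  have hm1 : ∀ i, 1 ≤ m i := fun i => by have := hm i; omega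
  have hpi : (2 * (Real.pi : ℂ) * Complex.I) ≠ 0 := Complex.two_pi_I_ne_zero
  have hr : ∀ (g : ℕ) (B : ℕ) (ξ : ℂ) (u : ℕ), (g * B : ℝ) + 1 < ‖ξ‖ → u ≤ B → 1 < ‖ξ - ((g * u : ℕ) : ℂ)‖ := by
    intro g B ξ u h hu
    have h1 := norm_sub_norm_le ξ ((g * u : ℕ) : ℂ)
    rw [Complex.norm_natCast] at h1
    have h2 : ((g * u : ℕ) : ℝ) ≤ g * B := by
      push_cast
      exact mul_le_mul_of_nonneg_left (by exact_mod_cast hu) (Nat.cast_nonneg g)
    linarith
  refine ⟨?_, ?_⟩
  · obtain ⟨G0, hG0, hmt⟩ := W2helper4.MJ.mt_many hm β hβ' hne'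
    refine ⟨G0, fun G hG => ?_⟩
    have key : ∀ g A₀ : ℕ, ∃ E : ℕ, ∀ (B : ℕ) (ξ : ℂ), ((B : ℝ) + 2) ^ E ≤ ‖ξ‖ → Height g A₀ ξ →
        (∀ u : ℕ, u ≤ B → 1 < ‖ξ - ((G * u : ℕ) : ℂ)‖) ∧
        ∀ (k : ℕ) (c : Fin k → Fin r) (u : Fin k → ℕ), Function.Injective u → (∀ j, 1 ≤ u j ∧ u j ≤ B) →
          ¬ Special β c (fun j => ξ - ((G * u j : ℕ) : ℂ)) := by
      intro g A₀
      obtain ⟨E, hE⟩ := hmt G hG g A₀
      refine ⟨E, fun B ξ hξ hht => ?_⟩
      obtain ⟨h1, h2⟩ := hE B ξ hξ hht
      refine ⟨fun u hu => hr G B ξ u h1 hu, ?_⟩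
      rintro k c u hu hub ⟨l, C, A, H, -, hR, hH, hgen⟩
      choose M hM using fun a => (hR a).log
      choose κ hκ hκA using fun a => (hR a).form
      have hmain := h2 k c u hub (fun a a' haa _ h => haa (hu h)) l C M A (fun _ => _) κ (fun a => (hR a).det)
        (fun _ => hpi) hM hκ hκA (fun a p => ⨆ r : {r : ℕ // p ≤ r ∧ r < 2 * m (c a)}, H a r) H
        (fun a p hp => (hH a).fil p hp) (fun a => ⟨fun _ => rfl, (hH a).conj, (hH a).orth, (hH a).pos⟩)
      exact hgen fun 𝔪 hbr hΦ X hX => hmain 𝔪 hbr hΦ X hX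
    refine ⟨key, fun k c u hu hu1 g A₀ => ?_⟩
    obtain ⟨E, hE⟩ := key g A₀
    set B := ∑ j, u j with hB
    have hub : ∀ j, u j ≤ B := fun j => Finset.single_le_sum (f := u) (fun _ _ => Nat.zero_le _) (Finset.mem_univ j)
    refine (Y119.HA.finite_ht g A₀ ((B + 2) ^ E) (fun ξ => ¬ Special β c (fun j => ξ - ((G * u j : ℕ) : ℂ)))
      (fun ξ hξ hht => ?_)).subset ?_
    · push_cast at hξ
      exact (hE B ξ hξ hht).2 k c u hu fun j => ⟨hu1 j, hub j⟩
    · rintro ξ ⟨h1, h2, h3⟩
      exact ⟨h1, h2, not_not.2 h3⟩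
  · intro k g hg
    obtain ⟨N₀, hN₀⟩ := W2helper4.MJ.mt_abs hm β hβ'
    obtain ⟨c₀, hc₀, K, hK, h1⟩ := W2helper4.MJ.fam_tup β hm1 hβ' hne' k g N₀ hg
    refine ⟨c₀, K, hc₀, fun T hT => ?_⟩
    obtain ⟨hfin, hcard⟩ := h1 T hT
    have hsub : {ξ : Fin k → ℂ | (∀ j, House g T (ξ j)) ∧ (∀ j, 1 < ‖ξ j‖) ∧ ∃ (s : ℕ) (c : Fin s → Fin r)
        (p : Fin s → Fin k), Function.Injective (fun a => (p a, c a)) ∧ Special β c (fun a => ξ (p a))} ⊆
        {α : Fin k → ℂ | (∀ j, Y916.Sl.SInt g T (α j)) ∧ (∀ j, 1 < ‖α j‖) ∧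
          ¬ W2helper4.MJ.GenAll β N₀ (fun j => 1 / α j)} := by
      rintro ξ ⟨h2, h3, s, c, p, hp, l, C, A, H, -, hR, hH, hgen⟩
      refine ⟨h2, h3, fun hall => ?_⟩
      choose M hM using fun a => (hR a).log
      choose κ hκ hκA using fun a => (hR a).form
      have hmain := hN₀ s c (fun a => ξ (p a)) (fun a => h3 (p a)) (fun a => hall.single (p a, c a))
        (fun a a' haa => hall.pair (x0 := (p a, c a)) (x1 := (p a', c a')) fun h => haa (hp h)) l C M A (fun _ => _) κ
        (fun a => (hR a).det) (fun _ => hpi) hM hκ hκA (fun a q => ⨆ r : {r : ℕ // q ≤ r ∧ r < 2 * m (c a)}, H a r) H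
        (fun a q hq => (hH a).fil q hq) (fun a => ⟨fun _ => rfl, (hH a).conj, (hH a).orth, (hH a).pos⟩)
      exact hgen fun 𝔪 hbr hΦ X hX => hmain 𝔪 hbr hΦ X hX
    refine ⟨hfin.subset hsub, ?_⟩
    refine le_trans ?_ hcard
    exact_mod_cast Set.ncard_le_ncard hsub hfin

end Pool.Agent.Results.MP_0704bf_ag.ProductsOfVariations
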