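import Pool.Agent.W2helper4.MJ.Main
import Pool.Agent.Y119.HA.Nor

/-!
# The Hodge locus of sums of hypergeometric variations of Hodge structure of Calabi–Yau type

Let `β_1, …, β_m` be rational numbers in `(0, 1)` and `θ = z d/dz`. The hypergeometric operator
`θ^(2m) - z ∏_j (θ + β_j) (θ + 1 - β_j)` has maximally unipotent monodromy at `z = 0` and underlies an irreducible
variation of Hodge structure `V_β` of rank `2m` and of weight `2m - 1` with all Hodge numbers `h^{p,q} = 1` on the
projective line minus three points, with generic Mumford–Tate group `GSp(2m)`; it is defined over `ℚ` if the set of the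
`exp (2 π i β_j)^{±1}` with multiplicities is Galois stable.

Let `β_1, …, β_s` be several such tuples, of any lengths `m_i ≥ 4`, which are pairwise inequivalent (not the same up to a
permutation and replacing some of the numbers by `1 - β`). The sum `V_(β_1) ⊕ ⋯ ⊕ V_(β_s)` is a variation of Hodge structure
on the same projective line minus three points. We prove that its fibre at the point `z = 1 / ξ` is Hodge generic for all
but finitely many algebraic numbers `ξ` with `|ξ| > 1` of bounded degree and of height bounded by a power of `|ξ|`,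
uniformly in all polarised rational structures of the summands: the Lie algebra of the Mumford–Tate group of the sum
contains the whole product of the symplectic Lie algebras. In other words, the Hodge locus (of all tensor
constructions) of the sum contains only finitely many of these points. (The level of these variations is at least 3, so
all their special points are atypical.) The starting file `HypergeometricAlgebraicGeneric` is the case of one summand.

Proof. (1) The joint monodromy group of inequivalent families is dense in the product of the symplectic groups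
(`Pool/Agent/W2helper4/HJ`), so by the theorem on values of G-functions at algebraic points (helper916) all relations of
bounded degree between the entries of the holomorphic parts of the solutions at `1 / ξ` hold on the whole product
(`MJ/Fib`). (2) For two families of the same rank we pass to an ultraproduct. There are derivations which kill the
holomorphic part of the second family, and move the one of the first family by any rank one element. If the Lie algebra
of the Mumford–Tate group of the sum had no element `(X, 0)` then the velocities of the first Hodge operator would be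
determined by those of the second one, which lie in a space of dimension `m + 1` (they come only from the movement of
the base change, which commutes with the local monodromy), but they span a space of dimension at least `3 m - 5`
(`MJ/Pair`). (3) For two families of different ranks we compare dimensions (`MJ/Lie`), and for several families use
the lemma of Goursat, Kolchin and Ribet.
-/

set_option autoImplicit false

open PowerSeries

namespace Pool.Agent.Results.MP_0704bf_ag.SumsOfVariations

/-- the power series `x + ε` in the variable `ε` -/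
noncomputable def shift (x : ℚ) : PowerSeries ℚ := C x + X

/-- `a_k(ε) = ∏_{l < k} ∏_j (l + ε + β_j) (l + ε + 1 - β_j) / (l + 1 + ε)^2`. The series `∑_k a_k(ε) z^(k + ε)` satisfies
`(θ^n - z ∏_j (θ + β_j) (θ + 1 - β_j)) f = ε^n z^ε`, `n = 2m`, hence its coefficients `f_j` at `ε^j` with `j < n` are
solutions of the homogeneous equation. -/
noncomputable def frob {m : ℕ} (β : Fin m → ℚ) (k : ℕ) : PowerSeries ℚ :=
  ∏ l ∈ Finset.range k, ∏ j, (shift (l + β j) * shift (l + 1 - β j) * ((shift (l + 1))⁻¹) ^ 2)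

/-- The row `((θ^i f_j)(1 / ξ))_j`, where `f_j(z)` is the coefficient of `ε^j` in the series `∑_k a_k(ε) z^(k + ε)`,
`z^ε = ∑_a (log z)^a ε^a / a!`, with the value `-l` of `log z`, where `exp l = ξ`. -/
noncomputable def per {m : ℕ} (β : Fin m → ℚ) (ξ l : ℂ) (i : ℕ) : Fin (2 * m) → ℂ := fun j =>
  ∑ a ∈ Finset.range ((j : ℕ) + 1), (-l) ^ a / (a.factorial : ℂ) *
    ∑' k : ℕ, ((coeff ((j : ℕ) - a) (shift k ^ i * frob β k) : ℚ) : ℂ) * (1 / ξ) ^ k

/-- The nilpotent matrix: `exp (2 π i N)` is the local monodromy at `z = 0` in the basis `f_0, …, f_{n-1}`. -/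
def N (n : ℕ) : Matrix (Fin n) (Fin n) ℂ := Matrix.of fun i j => if (j : ℕ) = i + 1 then 1 else 0

/-- the matrix of the flat alternating form in the Frobenius basis -/
def S (n : ℕ) : Matrix (Fin n) (Fin n) ℂ := Matrix.of fun i j => if (i : ℕ) + j + 1 = n then (-1) ^ (i : ℕ) else 0

/-- a rational matrix as a complex matrix -/
def toC {n : ℕ} (M : Matrix (Fin n) (Fin n) ℚ) : Matrix (Fin n) (Fin n) ℂ := M.map fun x : ℚ => (x : ℂ)

/-- The base change `C` from the Frobenius basis to rational coordinates and the rational form `(v, w) ↦ v A wᵀ` on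
`ℚ^n` (row vectors) are a rational structure with a form: the logarithm `2 π i C⁻¹ N C` of the local monodromy is rational
and the form is proportional to the flat form `S`. -/
structure RationalStructure {n : ℕ} (C : Matrix (Fin n) (Fin n) ℂ) (A : Matrix (Fin n) (Fin n) ℚ) : Prop where
  det : C.det ≠ 0
  log : ∃ M : Matrix (Fin n) (Fin n) ℚ, C * toC M = (2 * (Real.pi : ℂ) * Complex.I) • (N n * C)
  form : ∃ κ : ℂ, κ ≠ 0 ∧ C * toC A * C.transpose = κ • S n

/-- `H p = H^{p, n-1-p}`, `p < n = 2m`, are the parts of a Hodge structure of weight `n - 1` on `ℚ^n`, polarised by `± A`,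
the steps `F^p = ⨁_{r ≥ p} H^{r, n-1-r}`, `p ≥ m`, of whose Hodge filtration are the spans of the derivatives of order
`< n - p` of the period vector at the point `z = 1 / ξ` (the other steps are their orthogonal complements). -/
structure IsFibre {m : ℕ} (β : Fin m → ℚ) (ξ l : ℂ) (C : Matrix (Fin (2 * m)) (Fin (2 * m)) ℂ)
    (A : Matrix (Fin (2 * m)) (Fin (2 * m)) ℚ) (H : ℕ → Submodule ℂ (Fin (2 * m) → ℂ)) : Prop where
  fil : ∀ p, m ≤ p → (⨆ r : {r : ℕ // p ≤ r ∧ r < 2 * m}, H r) =
    Submodule.span ℂ {v | ∃ i : ℕ, i + p < 2 * m ∧ v = Matrix.vecMul (per β ξ l i) C}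
  conj : ∀ p < 2 * m, ∀ v ∈ H p, (fun i => star (v i)) ∈ H (2 * m - 1 - p)
  orth : ∀ p < 2 * m, ∀ r < 2 * m, p + r ≠ 2 * m - 1 → ∀ v ∈ H p, ∀ w ∈ H r,
    dotProduct v (Matrix.mulVec (toC A) w) = 0
  pos : ∃ ε : ℂ, (ε = 1 ∨ ε = -1) ∧ ∀ p < 2 * m, ∀ v ∈ H p, v ≠ 0 →
    0 < (ε * (Complex.I ^ p * (-Complex.I) ^ (2 * m - 1 - p)) *
      dotProduct v (Matrix.mulVec (toC A) fun i => star (v i))).re

/-- The Hodge operator `Φ` is the multiplication by `p` on `H^{p, n-1-p}`. Matrices act on row vectors from the right. -/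
def IsHodgeOperator {m : ℕ} (H : ℕ → Submodule ℂ (Fin (2 * m) → ℂ)) (Φ : Matrix (Fin (2 * m)) (Fin (2 * m)) ℂ) : Prop :=
  ∀ p < 2 * m, ∀ v ∈ H p, Matrix.vecMul v Φ = (p : ℂ) • v

/-- `ξ` is a root of a nonzero integral polynomial of degree at most `g` with coefficients of size at most `|ξ|^A` -/
def Height (g A : ℕ) (ξ : ℂ) : Prop :=
  ∃ p : Polynomial ℤ, p ≠ 0 ∧ p.natDegree ≤ g ∧ (∀ j, |(p.coeff j : ℝ)| ≤ ‖ξ‖ ^ A) ∧ Polynomial.aeval ξ p = 0

/-- `β` and `β'` agree up to a permutation and replacing some of the numbers `β` by `1 - β` (then the operators and the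
variations of Hodge structure agree) -/
def Equivalent {m m' : ℕ} (β : Fin m → ℚ) (β' : Fin m' → ℚ) : Prop :=
  ∃ e : Fin m ≃ Fin m', ∀ j, β j = β' (e j) ∨ β j = 1 - β' (e j)

section
variable {s : ℕ} {m : Fin s → ℕ}

/-- The Hodge structures `H_i` on `ℚ^(2 m_i)` of weights `2 m_i - 1` are jointly Hodge generic: every rational Lie algebra of
block diagonal matrices on `⨁_i ℚ^(2 m_i)` (given by the tuples of the blocks) whose complexification contains the Hodge
operator `(Φ_i)_i`, for example the Lie algebra of the Mumford–Tate group of the sum, contains the product of the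
symplectic Lie algebras of the forms `A_i`. -/
def HodgeGeneric (A : ∀ i, Matrix (Fin (2 * m i)) (Fin (2 * m i)) ℚ)
    (H : ∀ i, ℕ → Submodule ℂ (Fin (2 * m i) → ℂ)) : Prop :=
  ∀ 𝔪 : Submodule ℚ (∀ i, Matrix (Fin (2 * m i)) (Fin (2 * m i)) ℚ),
    (∀ X ∈ 𝔪, ∀ Y ∈ 𝔪, (fun i => X i * Y i - Y i * X i) ∈ 𝔪) →
    (∀ Φ : ∀ i, Matrix (Fin (2 * m i)) (Fin (2 * m i)) ℂ, (∀ i, IsHodgeOperator (H i) (Φ i)) →
      Φ ∈ Submodule.span ℂ ((fun X i => toC (X i)) '' (𝔪 : Set (∀ i, Matrix (Fin (2 * m i)) (Fin (2 * m i)) ℚ)))) →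
    ∀ X : ∀ i, Matrix (Fin (2 * m i)) (Fin (2 * m i)) ℚ, (∀ i, X i * A i + A i * (X i).transpose = 0) → X ∈ 𝔪

/-- The point `1 / ξ` is in the Hodge locus of the sum for some choice of the rational structures: there are logarithms
`l_i` of `ξ`, rational structures `(C_i, A_i)` and Hodge structures polarised by `± A_i` which are the fibres at `1 / ξ` and
are not jointly Hodge generic. -/
def Special (β : ∀ i, Fin (m i) → ℚ) (ξ : ℂ) : Prop :=
  ∃ (l : Fin s → ℂ) (C : ∀ i, Matrix (Fin (2 * m i)) (Fin (2 * m i)) ℂ)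
    (A : ∀ i, Matrix (Fin (2 * m i)) (Fin (2 * m i)) ℚ) (H : ∀ i, ℕ → Submodule ℂ (Fin (2 * m i) → ℂ)),
    (∀ i, Complex.exp (l i) = ξ) ∧ (∀ i, RationalStructure (C i) (A i)) ∧
    (∀ i, IsFibre (β i) ξ (l i) (C i) (A i) (H i)) ∧ ¬ HodgeGeneric A H

end

theorem N_eq (n : ℕ) : N n = Pool.Agent.Y113.MT.NN ℂ n := rfl

theorem S_eq (n : ℕ) : S n = Pool.Agent.Y113.MT.SS ℂ n := rfl

theorem toC_eq {n : ℕ} (M : Matrix (Fin n) (Fin n) ℚ) : toC M = Pool.Agent.Y113.MT.cq M := rfl

/-- Let `β_1, …, β_s` be pairwise inequivalent tuples of rational numbers in `(0, 1)`, of lengths `m_i ≥ 4`. (1) For all `g`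
and `A` only finitely many algebraic numbers `ξ` of degree `≤ g`, `|ξ| > 1`, of height `≤ |ξ|^A`, are such that the fibre of
the sum of the hypergeometric variations `θ^(2 m_i) - z ∏_j (θ + β_ij) (θ + 1 - β_ij)` at the point `z = 1 / ξ` is in the
Hodge locus for some polarised rational structures (which may depend on `ξ`): for all others the Lie algebra of the
Mumford–Tate group of the sum contains the product of the symplectic Lie algebras. (2) For all `g` only finitely many
algebraic integers `ξ` of degree `≤ g` are such that the fibres of the sum at all the points `1 / ξ'` in the unit disc,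
`ξ'` conjugate to `ξ`, are in the Hodge locus. -/
theorem result {s : ℕ} (m : Fin s → ℕ) (hm : ∀ i, 4 ≤ m i) (β : ∀ i, Fin (m i) → ℚ)
    (hβ : ∀ i j, 0 < β i j ∧ β i j < 1) (hne : ∀ i k, i ≠ k → ¬ Equivalent (β i) (β k)) :
    (∀ g A : ℕ, {ξ : ℂ | 1 < ‖ξ‖ ∧ Height g A ξ ∧ Special β ξ}.Finite) ∧
    (∀ g : ℕ, {ξ : ℂ | IsIntegral ℤ ξ ∧ (minpoly ℚ ξ).natDegree ≤ g ∧
      ∀ ξ' : ℂ, Polynomial.aeval ξ' (minpoly ℚ ξ) = 0 → 1 < ‖ξ'‖ → Special β ξ'}.Finite) := by
  have hβ' : ∀ i j, ∀ a : ℤ, β i j ≠ a := by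
    intro i j a h
    have h1 := hβ i j
    rw [h] at h1
    have h2 : (0 : ℤ) < a := by exact_mod_cast h1.1
    have h3 : a < (1 : ℤ) := by exact_mod_cast h1.2
    omega
  have hne' : ∀ i k, i ≠ k → ¬ W2helper4.HJ.Eqv (β i) (β k) := by
    rintro i k hik ⟨e, he⟩
    refine hne i k hik ⟨e, fun j => ?_⟩
    obtain ⟨a, ha⟩ := he j
    have h1 := hβ i j
    have h2 := hβ k (e j)
    rcases ha with ha | ha
    · left
      have h3 : (-1 : ℚ) < a := by linarith
      have h4 : (a : ℚ) < 1 := by linarith
      have h5 : -1 < a := by exact_mod_cast h3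
      have h6 : a < 1 := by exact_mod_cast h4
      have h7 : a = 0 := by omega
      rw [ha, h7]
      simp
    · right
      have h3 : (0 : ℚ) < a := by linarith
      have h4 : (a : ℚ) < 2 := by linarith
      have h5 : 0 < a := by exact_mod_cast h3
      have h6 : a < 2 := by exact_mod_cast h4
      have h7 : a = 1 := by omega
      rw [ha, h7]
      simp
  have hpi : (2 * (Real.pi : ℂ) * Complex.I) ≠ 0 := Complex.two_pi_I_ne_zero
  obtain ⟨G0, hG0, hmt⟩ := W2helper4.MJ.mt_many hm β hβ' hne'
  have key : ∀ g A : ℕ, ∃ t0 : ℕ, ∀ ξ : ℂ, (t0 : ℝ) ≤ ‖ξ‖ → Height g A ξ → ¬ Special β ξ := by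
    intro g A₀
    obtain ⟨Ex, hEx⟩ := hmt G0 le_rfl g (A₀ + 1)
    obtain ⟨B, hB⟩ := Y119.HA.ht_add g A₀ G0
    obtain ⟨N₁, hN₁⟩ := exists_nat_ge B
    refine ⟨N₁ + 3 ^ Ex + G0, ?_⟩
    rintro ξ hξ hht ⟨l, C, A, H, -, hR, hH, hgen⟩
    push_cast at hξ
    have hG0R : (0 : ℝ) ≤ G0 := Nat.cast_nonneg G0
    have hN0R : (0 : ℝ) ≤ N₁ := Nat.cast_nonneg N₁
    have h3 : (0 : ℝ) ≤ 3 ^ Ex := by positivity
    have hht' := hB ξ (by linarith) hht
    have hbig : (((1 : ℕ) : ℝ) + 2) ^ Ex ≤ ‖ξ + G0‖ := by
      have h1 := norm_sub_norm_le ξ (-(G0 : ℂ))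
      rw [norm_neg, Complex.norm_natCast, sub_neg_eq_add] at h1
      have h4 : (((1 : ℕ) : ℝ) + 2) ^ Ex = 3 ^ Ex := by norm_num
      rw [h4]
      linarith
    choose M hM using fun i => (hR i).log
    choose κ hκ hκA using fun i => (hR i).form
    have hpt : (ξ + G0) - ((G0 * 1 : ℕ) : ℂ) = ξ := by
      push_cast
      ring
    have hmain := (hEx 1 (ξ + G0) hbig hht').2 s (fun i => i) (fun _ => 1) (fun _ => ⟨le_rfl, le_rfl⟩)
      (fun a a' haa h => absurd h haa) l C M A (fun _ => _) κ (fun i => (hR i).det) (fun _ => hpi) hM hκ hκA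
      (fun i p => ⨆ r : {r : ℕ // p ≤ r ∧ r < 2 * m i}, H i r) H (fun i p hp => by
        rw [hpt]
        exact (hH i).fil p hp) (fun i => ⟨fun _ => rfl, (hH i).conj, (hH i).orth, (hH i).pos⟩)
    exact hgen fun 𝔪 hbr hΦ X hX => hmain 𝔪 hbr hΦ X hX
  refine ⟨fun g A₀ => ?_, fun g => ?_⟩
  · obtain ⟨t0, ht0⟩ := key g A₀
    refine (Y119.HA.finite_ht g A₀ t0 (fun ξ => ¬ Special β ξ) ht0).subset ?_
    rintro ξ ⟨h1, h2, h3⟩
    exact ⟨h1, h2, not_not.2 h3⟩
  · obtain ⟨t0, ht0⟩ := key g (2 * g)
    refine (Y119.HA.finite_conj g t0 (fun ξ => ¬ Special β ξ) ht0).subset ?_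
    rintro ξ ⟨h1, h2, h3⟩
    exact ⟨h1, h2, fun ξ' hr h1' => not_not.2 (h3 ξ' hr h1')⟩

end Pool.Agent.Results.MP_0704bf_ag.SumsOfVariations
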